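import Pool.Agent.H88.NoBai2

open Filter Topology

theorem Pool.Agent.Results.MP_93ce62_an.Q2.result :
    ∃ (A : Type) (_ : NonUnitalNormedCommRing A) (_ : NormedSpace ℂ A) (_ : IsScalarTower ℂ A A)
      (_ : SMulCommClass ℂ A A) (_ : CompleteSpace A),
      DiscreteTopology (WeakDual.characterSpace ℂ A) ∧
      (∀ (F : Set (WeakDual.characterSpace ℂ A)) (φ : WeakDual.characterSpace ℂ A),
        IsClosed F → φ ∉ F → ∃ a : A, (∀ ψ ∈ F, ψ a = 0) ∧ φ a ≠ 0) ∧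
      (∀ a : A, (∀ φ : WeakDual.characterSpace ℂ A, φ a = 0) → a = 0) ∧
      (∃ M : ℝ, 1 ≤ M ∧ ∀ a : A, ∃ b c b' c' : A, a = b * c + b' * c' ∧
        ‖b‖ * ‖c‖ + ‖b'‖ * ‖c'‖ ≤ M * ‖a‖) ∧
      (∃ a : A, ∀ e : A, 1 ≤ ‖a - e * a‖) ∧
      ∀ (ι : Type) (l : Filter ι) (e : ι → A), l.NeBot →
        ¬ ∀ a : A, Tendsto (fun i => ‖a - e i * a‖) l (𝓝 0) := by
  refine ⟨Pool.Agent.H88.SgAlg.A Pool.Agent.H88.NoBai.S, inferInstance, inferInstance,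
    inferInstance, inferInstance, inferInstance, Pool.Agent.H88.NoBai.discrete,
    fun F φ _ h => Pool.Agent.H88.NoBai.regular F φ h, Pool.Agent.H88.NoBai.semi,
    ⟨2368, by norm_num, Pool.Agent.H88.NoBai.fac⟩, ⟨_, Pool.Agent.H88.NoBai.no_ai⟩,
    fun ι l e _ h => ?_⟩
  have := ge_of_tendsto' (h _) fun i => Pool.Agent.H88.NoBai.no_ai (e i)
  linarith
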